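import Pool.Agent.Helper97.SO.TwoBase

/-!
# Connectivity from separations by vertices outside `T`

All vertices of `T` have degree two, with neighbours outside `T`. If there is no separation of order
at most two whose separator avoids `T` and whose sides have at least two vertices, and the graph has
index at least two, then the graph is connected in the sense of `Pre2`.
-/

set_option autoImplicit false

namespace Pool.Agent.Helper82.SO

open SimpleGraph Pool.Agent.Helper57.TOK Pool.Agent.Helper57.TD Pool.Agent.Helper57.TOP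
  Pool.Agent.Helper82.TK Pool.Agent.Helper97.SO Pool.Agent.Helper82.RP

variable {V : Type*}

/-- The separation given by a set. -/
lemma sepn_of_set {H : SimpleGraph V} {U : Set V} (he : ∀ u v, H.Adj u v → u ∈ U) {Y : Set V}
    (hY : Y ⊆ U) : Sepn H U Y (Nb H Y) (U \ (Y ∪ Nb H Y)) where
  YU := hY
  NU := fun v hv => by
    obtain ⟨-, y, -, hyv⟩ := hv
    exact he v y hyv.symm
  RU := Set.sdiff_subset
  cov := fun v hv => by
    by_cases h1 : v ∈ Y
    · exact Or.inl h1
    · by_cases h2 : v ∈ Nb H Y
      · exact Or.inr (Or.inl h2)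
      · exact Or.inr (Or.inr ⟨hv, fun h => h.elim h1 h2⟩)
  YN := by
    rw [Set.disjoint_left]
    exact fun v hv hv' => hv'.1 hv
  YR := by
    rw [Set.disjoint_left]
    exact fun v hv hv' => hv'.2 (Or.inl hv)
  NR := by
    rw [Set.disjoint_left]
    exact fun v hv hv' => hv'.2 (Or.inr hv)
  no := fun u hu v hv huv => hv.2 (Or.inr ⟨fun h => hv.2 (Or.inl h), u, hu, huv⟩)

/-- Move a separator vertex without neighbours in `R` to `Y`. -/
lemma Sepn.moveY {H : SimpleGraph V} {U Y N R : Set V} (hs : Sepn H U Y N R) {n : V}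
    (hn : n ∈ N) (hR : ∀ v ∈ R, ¬ H.Adj n v) : Sepn H U (insert n Y) (N \ {n}) R where
  YU := by
    rintro v (rfl | hv)
    · exact hs.NU hn
    · exact hs.YU hv
  NU := fun v hv => hs.NU hv.1
  RU := hs.RU
  cov := fun v hv => by
    rcases hs.cov v hv with h | h | h
    · exact Or.inl (Or.inr h)
    · by_cases hvn : v = n
      · exact Or.inl (Or.inl hvn)
      · exact Or.inr (Or.inl ⟨h, hvn⟩)
    · exact Or.inr (Or.inr h)
  YN := by
    rw [Set.disjoint_left]
    rintro v (rfl | hv) hv'
    · exact hv'.2 rfl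
    · exact (Set.disjoint_left.1 hs.YN) hv hv'.1
  YR := by
    rw [Set.disjoint_left]
    rintro v (rfl | hv) hv'
    · exact (Set.disjoint_left.1 hs.NR) hn hv'
    · exact (Set.disjoint_left.1 hs.YR) hv hv'
  NR := hs.NR.mono_left Set.sdiff_subset
  no := by
    rintro u (rfl | hu) v hv
    · exact hR v hv
    · exact hs.no u hu v hv

/-- Replace a separator vertex with a single neighbour `y` in `R` by `y`. -/
lemma Sepn.swapR {H : SimpleGraph V} {U Y N R : Set V} (hs : Sepn H U Y N R) {n y : V}
    (hn : n ∈ N) (hy : y ∈ R) (hR : ∀ v ∈ R, H.Adj n v → v = y) :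
    Sepn H U (insert n Y) (insert y (N \ {n})) (R \ {y}) where
  YU := by
    rintro v (rfl | hv)
    · exact hs.NU hn
    · exact hs.YU hv
  NU := by
    rintro v (rfl | hv)
    · exact hs.RU hy
    · exact hs.NU hv.1
  RU := fun v hv => hs.RU hv.1
  cov := fun v hv => by
    rcases hs.cov v hv with h | h | h
    · exact Or.inl (Or.inr h)
    · by_cases hvn : v = n
      · exact Or.inl (Or.inl hvn)
      · exact Or.inr (Or.inl (Or.inr ⟨h, hvn⟩))
    · by_cases hvn : v = y
      · exact Or.inr (Or.inl (Or.inl hvn))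
      · exact Or.inr (Or.inr ⟨h, hvn⟩)
  YN := by
    rw [Set.disjoint_left]
    rintro v (rfl | hv) (h | h)
    · exact (Set.disjoint_left.1 hs.NR) hn (h ▸ hy)
    · exact h.2 rfl
    · exact (Set.disjoint_left.1 hs.YR) hv (h ▸ hy)
    · exact (Set.disjoint_left.1 hs.YN) hv h.1
  YR := by
    rw [Set.disjoint_left]
    rintro v (rfl | hv) hv'
    · exact (Set.disjoint_left.1 hs.NR) hn hv'.1
    · exact (Set.disjoint_left.1 hs.YR) hv hv'.1
  NR := by
    rw [Set.disjoint_left]
    rintro v (rfl | hv) hv'
    · exact hv'.2 rfl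
    · exact (Set.disjoint_left.1 hs.NR) hv.1 hv'.1
  no := by
    rintro u (rfl | hu) v hv huv
    · exact hv.2 (hR v hv.1 huv)
    · exact hs.no u hu v hv.1 huv

lemma Sepn.symm {H : SimpleGraph V} {U Y N R : Set V} (hs : Sepn H U Y N R) :
    Sepn H U R N Y where
  YU := hs.RU
  NU := hs.NU
  RU := hs.YU
  cov := fun v hv => by
    rcases hs.cov v hv with h | h | h
    · exact Or.inr (Or.inr h)
    · exact Or.inr (Or.inl h)
    · exact Or.inl h
  YN := hs.NR.symm
  YR := hs.YR.symm
  NR := hs.YN.symm
  no := fun u hu v hv huv => hs.no v hv u hu huv.symm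

/-- Separations of order at most two. -/
theorem no_sepn [Finite V] {H : SimpleGraph V} {U T : Set V}
    (he : ∀ u v, H.Adj u v → u ∈ U)
    (hT : ∀ t ∈ T, ∃ x y, x ≠ y ∧ x ∉ T ∧ y ∉ T ∧ H.neighborSet t = {x, y})
    (hi : Ind2 H)
    (hc : ∀ Y N R, Sepn H U Y N R → N.ncard ≤ 2 → Disjoint N T → 2 ≤ Y.ncard → 2 ≤ R.ncard →
      False) :
    ∀ k, ∀ Y N R : Set V, Sepn H U Y N R → N.ncard ≤ 2 → 2 ≤ Y.ncard → 2 ≤ R.ncard →
      (N ∩ T).ncard ≤ k → False := by
  classical
  intro k
  induction k with
  | zero =>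
    intro Y N R hs hN hY hR hk
    have h0 : N ∩ T = ∅ := (Set.ncard_eq_zero (Set.toFinite _)).1 (by omega)
    exact hc Y N R hs hN (Set.disjoint_iff_inter_eq_empty.2 h0) hY hR
  | succ k ih =>
    -- moving a vertex which is not adjacent to `R`
    have mv : ∀ Y N R : Set V, Sepn H U Y N R → N.ncard ≤ 2 → 2 ≤ Y.ncard → 2 ≤ R.ncard →
        (N ∩ T).ncard ≤ k + 1 → ∀ n ∈ N, n ∈ T → (∀ v ∈ R, ¬ H.Adj n v) → False := by
      intro Y N R hs hN hY hR hk n hn hnT hno
      have hc1 := Set.ncard_sdiff_singleton_add_one hn (Set.toFinite _)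
      have hc2 := Set.ncard_sdiff_singleton_add_one
        (show n ∈ N ∩ T from ⟨hn, hnT⟩) (Set.toFinite _)
      have hcY := Set.ncard_le_ncard (Set.subset_insert n Y) (Set.toFinite _)
      refine ih (insert n Y) (N \ {n}) R (Sepn.moveY hs hn hno) (by omega) (by omega) hR ?_
      have : (N \ {n}) ∩ T = (N ∩ T) \ {n} := by
        ext z
        simp only [Set.mem_sdiff, Set.mem_inter_iff, Set.mem_singleton_iff]
        tauto
      rw [this]
      omega
    -- swapping
    have sw : ∀ Y N R : Set V, Sepn H U Y N R → N.ncard ≤ 2 → 2 ≤ Y.ncard → 3 ≤ R.ncard →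
        (N ∩ T).ncard ≤ k + 1 → ∀ n ∈ N, n ∈ T → ∀ y ∈ R, y ∉ T →
        (∀ v ∈ R, H.Adj n v → v = y) → False := by
      intro Y N R hs hN hY hR hk n hn hnT y hy hyT hno
      have hc1 := Set.ncard_sdiff_singleton_add_one hn (Set.toFinite _)
      have hc2 := Set.ncard_sdiff_singleton_add_one
        (show n ∈ N ∩ T from ⟨hn, hnT⟩) (Set.toFinite _)
      have hcY := Set.ncard_le_ncard (Set.subset_insert n Y) (Set.toFinite _)
      have hcR := Set.ncard_sdiff_singleton_add_one hy (Set.toFinite _)
      have hcN := Set.ncard_insert_le y (N \ {n})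
      refine ih (insert n Y) (insert y (N \ {n})) (R \ {y}) (Sepn.swapR hs hn hy hno)
        (by omega) (by omega) (by omega) ?_
      have : insert y (N \ {n}) ∩ T ⊆ (N ∩ T) \ {n} := by
        rintro z ⟨rfl | hz, hzT⟩
        · exact absurd hzT hyT
        · exact ⟨⟨hz.1, hzT⟩, hz.2⟩
      have := Set.ncard_le_ncard this (Set.toFinite _)
      omega
    intro Y N R hs hN hY hR hk
    -- every vertex of `N ∩ T` is adjacent to both sides
    have cross : ∀ n ∈ N, n ∈ T → ∃ x ∈ Y, ∃ y ∈ R, x ∉ T ∧ y ∉ T ∧
        ∀ v, H.Adj n v ↔ v = x ∨ v = y := by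
      intro n hn hnT
      obtain ⟨x, y, hxy, hx, hy, hnb⟩ := hT n hnT
      have hall : ∀ v, H.Adj n v ↔ v = x ∨ v = y := by
        intro v
        rw [← SimpleGraph.mem_neighborSet, hnb]
        rfl
      obtain ⟨v, hv, hnv⟩ : ∃ v ∈ Y, H.Adj n v := by
        by_contra hcon
        push Not at hcon
        refine mv R N Y (Sepn.symm hs) hN hR hY hk n hn hnT hcon
      obtain ⟨w, hw, hnw⟩ : ∃ v ∈ R, H.Adj n v := by
        by_contra hcon
        push Not at hcon
        exact mv Y N R hs hN hY hR hk n hn hnT hcon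
      have hvw : v ≠ w := fun hh => (Set.disjoint_left.1 hs.YR) hv (hh ▸ hw)
      rcases (hall v).1 hnv with h1 | h1
      · rcases (hall w).1 hnw with h2 | h2
        · exact absurd (h1.trans h2.symm) hvw
        · exact ⟨x, h1 ▸ hv, y, h2 ▸ hw, hx, hy, hall⟩
      · rcases (hall w).1 hnw with h2 | h2
        · exact ⟨y, h1 ▸ hv, x, h2 ▸ hw, hy, hx, fun v => (hall v).trans or_comm⟩
        · exact absurd (h1.trans h2.symm) hvw
    by_cases h0 : (N ∩ T).ncard ≤ k
    · exact ih Y N R hs hN hY hR h0
    obtain ⟨n, hn, hnT⟩ : (N ∩ T).Nonempty := (Set.ncard_pos (Set.toFinite _)).1 (by omega)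
    obtain ⟨x, hx, y, hy, hxT, hyT, hall⟩ := cross n hn hnT
    have hYR' := Set.disjoint_left.1 hs.YR
    have hYN' := Set.disjoint_left.1 hs.YN
    have hNR' := Set.disjoint_left.1 hs.NR
    have hR2 : R.ncard = 2 := by
      by_contra hne
      refine sw Y N R hs hN hY (by omega) hk n hn hnT y hy hyT ?_
      intro v hv hnv
      rcases (hall v).1 hnv with h1 | h1
      · exact absurd (h1 ▸ hv) (hYR' hx)
      · exact h1
    have hY2 : Y.ncard = 2 := by
      by_contra hne
      refine sw R N Y (Sepn.symm hs) hN hR (by omega) hk n hn hnT x hx hxT ?_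
      intro v hv hnv
      rcases (hall v).1 hnv with h1 | h1
      · exact h1
      · exact absurd hy (hYR' (h1 ▸ hv))
    have hcn := Set.ncard_sdiff_singleton_add_one hn (Set.toFinite _)
    by_cases hex : ∃ m ∈ N, m ∈ T ∧ m ≠ n
    · obtain ⟨m, hm, hmT, hmn⟩ := hex
      obtain ⟨x', hx', y', hy', hxT', hyT', hall'⟩ := cross m hm hmT
      -- first step
      have s1 := Sepn.swapR hs hm hy' (fun v hv hmv => by
        rcases (hall' v).1 hmv with h1 | h1
        · exact absurd (h1 ▸ hv) (hYR' hx')
        · exact h1)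
      have hnN1 : n ∈ insert y' (N \ {m}) := Or.inr ⟨hn, fun h => hmn (Set.mem_singleton_iff.1 h).symm⟩
      have s2 := Sepn.swapR (Sepn.symm s1) hnN1 (Or.inr hx : x ∈ insert m Y) (fun v hv hnv => by
        rcases (hall v).1 hnv with h1 | h1
        · exact h1
        · exfalso
          subst h1
          rcases hv with h2 | h2
          · exact hyT (h2 ▸ hmT)
          · exact hYR' h2 hy)
      have hNm : N ⊆ {n, m} := by
        have h1 : ({n, m} : Set V) ⊆ N := by
          rintro z (rfl | hz)
          · exact hn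
          · rw [Set.mem_singleton_iff] at hz; rw [hz]; exact hm
        rw [Set.eq_of_subset_of_ncard_le h1 (by rw [Set.ncard_pair (Ne.symm hmn)]; exact hN)
          (Set.toFinite _)]
      have hsub : insert x ((insert y' (N \ {m})) \ {n}) ⊆ {x, y'} := by
        rintro z (rfl | ⟨hz | hz, hz'⟩)
        · exact Or.inl rfl
        · exact Or.inr hz
        · exfalso
          rcases hNm hz.1 with h1 | h1
          · exact hz' h1
          · exact hz.2 h1
      have c1 : ((insert m Y) \ {x}).ncard = 2 := by
        have e1 := Set.ncard_sdiff_singleton_add_one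
          (show x ∈ insert m Y from Or.inr hx) (Set.toFinite _)
        have e2 := Set.ncard_insert_of_notMem (show m ∉ Y from fun h => hYN' h hm)
          (Set.toFinite _)
        omega
      have c2 : (insert n (R \ {y'})).ncard = 2 := by
        have e1 := Set.ncard_sdiff_singleton_add_one hy' (Set.toFinite _)
        have e2 := Set.ncard_insert_of_notMem
          (show n ∉ R \ {y'} from fun h => hNR' hn h.1) (Set.toFinite _)
        omega
      refine ih _ _ _ s2 ?_ (by omega) (by omega) ?_
      · exact (Set.ncard_le_ncard hsub (Set.toFinite _)).trans (ncard_pair_le' x y')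
      · have : insert x ((insert y' (N \ {m})) \ {n}) ∩ T = ∅ := by
          rw [Set.eq_empty_iff_forall_notMem]
          rintro z ⟨hz, hzT⟩
          rcases hsub hz with h1 | h1
          · exact hxT (h1 ▸ hzT)
          · rw [Set.mem_singleton_iff] at h1
            exact hyT' (h1 ▸ hzT)
        rw [this, Set.ncard_empty]
        omega
    · push Not at hex
      -- the path
      obtain ⟨z, hz⟩ : ∃ z, ∀ v ∈ N, v = n ∨ v = z := by
        by_cases h1 : (N \ {n}).ncard = 0
        · refine ⟨n, fun v hv => Or.inl ?_⟩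
          by_contra hne
          have : v ∈ N \ {n} := ⟨hv, hne⟩
          rw [(Set.ncard_eq_zero (Set.toFinite _)).1 h1] at this
          exact this
        · obtain ⟨z, hz⟩ := Set.ncard_eq_one.1 (by omega : (N \ {n}).ncard = 1)
          refine ⟨z, fun v hv => ?_⟩
          by_cases hvn : v = n
          · exact Or.inl hvn
          · right
            have : v ∈ N \ {n} := ⟨hv, hvn⟩
            rw [hz] at this
            exact this
      have two : ∀ {S : Set V} {a v w : V}, S.ncard = 2 → a ∈ S → v ∈ S → w ∈ S → v ≠ a →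
          w ≠ v → w = a := by
        intro S a v w h2 ha hv hw hva hwv
        by_contra hwa
        have h3 : ({a, v, w} : Set V) ⊆ S := by
          rintro u (rfl | rfl | hu)
          · exact ha
          · exact hv
          · rw [Set.mem_singleton_iff] at hu; rw [hu]; exact hw
        have h4 := Set.ncard_le_ncard h3 (Set.toFinite _)
        rw [Set.ncard_eq_three.2 ⟨a, v, w, hva.symm, Ne.symm hwa, hwv.symm, rfl⟩] at h4
        omega
      refine hi z (fun v => if v = x ∨ v = y then 1 else 0) ?_
      have hxy : ¬ H.Adj x y := hs.no x hx y hy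
      have key : ∀ a b, a ≠ z → b ≠ z → H.Adj a b → ¬ (a = x ∨ a = y) → b = x ∨ b = y := by
        intro a b ha hb hab hna
        by_contra hnb
        push Not at hna hnb
        have hn' : ∀ c d, H.Adj c d → c = n → d ≠ x → d ≠ y → False := by
          intro c d hcd hcn hdx hdy
          rw [hcn] at hcd
          rcases (hall d).1 hcd with h1 | h1
          · exact hdx h1
          · exact hdy h1
        rcases hs.cov a (he a b hab) with h1 | h1 | h1
        · rcases hs.cov b (he b a hab.symm) with h2 | h2 | h2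
          · exact hnb.1 (two hY2 hx h1 h2 hna.1 hab.ne')
          · rcases hz b h2 with h3 | h3
            · exact hn' b a hab.symm h3 hna.1 hna.2
            · exact hb h3
          · exact hs.no a h1 b h2 hab
        · rcases hz a h1 with h3 | h3
          · exact hn' a b hab h3 hnb.1 hnb.2
          · exact ha h3
        · rcases hs.cov b (he b a hab.symm) with h2 | h2 | h2
          · exact hs.no b h2 a h1 hab.symm
          · rcases hz b h2 with h3 | h3
            · exact hn' b a hab.symm h3 hna.1 hna.2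
            · exact hb h3
          · exact hnb.2 (two hR2 hy h1 h2 hna.2 hab.ne')
      intro a b ha hb hab
      by_cases h1 : a = x ∨ a = y
      · have h2 : ¬ (b = x ∨ b = y) := by
          rintro (h3 | h3)
          · rcases h1 with h1 | h1
            · exact hab.ne (h1.trans h3.symm)
            · rw [h1, h3] at hab; exact hxy hab.symm
          · rcases h1 with h1 | h1
            · rw [h1, h3] at hab; exact hxy hab
            · exact hab.ne (h1.trans h3.symm)
        show (if a = x ∨ a = y then (1 : ZMod 2) else 0) ≠ (if b = x ∨ b = y then 1 else 0)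
        rw [if_pos h1, if_neg h2]
        decide
      · have h2 := key a b ha hb hab h1
        show (if a = x ∨ a = y then (1 : ZMod 2) else 0) ≠ (if b = x ∨ b = y then 1 else 0)
        rw [if_neg h1, if_pos h2]
        decide

/-- Connectivity from separations by vertices outside of `T`. -/
theorem conn_of [Finite V] {H : SimpleGraph V} {U T : Set V}
    (he : ∀ u v, H.Adj u v → u ∈ U)
    (hT : ∀ t ∈ T, ∃ x y, x ≠ y ∧ x ∉ T ∧ y ∉ T ∧ H.neighborSet t = {x, y})
    (hi : Ind2 H)
    (hc : ∀ Y N R, Sepn H U Y N R → N.ncard ≤ 2 → Disjoint N T → 2 ≤ Y.ncard → 2 ≤ R.ncard →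
      False) :
    ∀ Y ⊆ U, 2 ≤ Y.ncard → (Nb H Y).ncard ≤ 2 → (U \ (Y ∪ Nb H Y)).ncard ≤ 1 := by
  intro Y hY h2 hN
  by_contra hlt
  push Not at hlt
  exact no_sepn he hT hi hc _ Y (Nb H Y) _ (sepn_of_set he hY) hN h2 (by omega) le_rfl

end Pool.Agent.Helper82.SO
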